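import Mathlib

/-!
# Edge isoperimetry in lattice Cayley graphs: definitions

The Cayley graph of `ℤ^d` with respect to a finite set `U` is the simple graph in which `x` and `y`
are adjacent iff `y - x ∈ U ∪ (-U)`.
-/

namespace Pool.Agent.Lib.MP_602b76_co_Never

/-- The edge boundary of the finite set `S` in the Cayley graph of `ℤ^d` with respect to `U`: the
number of pairs `(x, u)` with `x ∈ S`, `u ∈ U ∪ (-U)` and `x + u ∉ S`. Each edge with exactly one
endpoint in `S` is counted exactly once (by its endpoint in `S`). -/
def edgeBoundary {d : ℕ} (U S : Finset (Fin d → ℤ)) : ℕ :=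
  ((S ×ˢ (U ∪ U.image (fun u => -u))).filter (fun p => p.1 + p.2 ∉ S)).card

/-- `S` is edge-optimal: no finite set with the same number of points has a smaller edge
boundary. -/
def EdgeOptimal {d : ℕ} (U S : Finset (Fin d → ℤ)) : Prop :=
  ∀ S' : Finset (Fin d → ℤ), S'.card = S.card → edgeBoundary U S ≤ edgeBoundary U S'

end Pool.Agent.Lib.MP_602b76_co_Never
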