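import Pool.Agent.Lib.MP_602b76_co_Never.Defs

namespace Pool.Agent.Lib.MP_602b76_co_Never

open Finset

/-- points of `S` whose translate by `u` leaves `S` -/
def outc {d : ℕ} (S : Finset (Fin d → ℤ)) (u : Fin d → ℤ) : ℕ :=
  (S.filter (fun x => x + u ∉ S)).card

lemma outc_neg {d : ℕ} (S : Finset (Fin d → ℤ)) (u : Fin d → ℤ) : outc S (-u) = outc S u := by
  have h1 : (S.filter (fun x => x + u ∈ S)).card = (S.filter (fun x => x + (-u) ∈ S)).card := by
    apply Finset.card_bij (fun x _ => x + u)
    · intro a ha
      simp only [mem_filter] at ha ⊢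
      refine ⟨ha.2, ?_⟩
      simpa using ha.1
    · intro a _ b _ h
      simpa using h
    · intro b hb
      simp only [mem_filter] at hb
      refine ⟨b + (-u), ?_, by simp⟩
      simp only [mem_filter]
      exact ⟨hb.2, by simpa using hb.1⟩
  have h2 := Finset.card_filter_add_card_filter_not (s := S) (fun x => x + u ∈ S)
  have h3 := Finset.card_filter_add_card_filter_not (s := S) (fun x => x + (-u) ∈ S)
  unfold outc
  omega

lemma edgeBoundary_eq {d : ℕ} (U S : Finset (Fin d → ℤ))
    (hU : ∀ u ∈ U, -u ∉ U) : edgeBoundary U S = 2 * ∑ u ∈ U, outc S u := by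
  have h1 : edgeBoundary U S = ∑ u ∈ U ∪ U.image (fun u => -u), outc S u := by
    unfold edgeBoundary outc
    rw [Finset.card_filter, Finset.sum_product_right]
    apply Finset.sum_congr rfl
    intro u _
    rw [Finset.card_filter]
  rw [h1, Finset.sum_union]
  · rw [Finset.sum_image (by intro a _ b _ h; simpa using h)]
    simp only [outc_neg]
    ring
  · rw [Finset.disjoint_left]
    intro a ha hb
    simp only [mem_image] at hb
    obtain ⟨b, hb, rfl⟩ := hb
    exact hU b hb ha

/-- sum of the `k` largest of `r, r-1, ..., 0, 0, ...` -/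
def wt (r k : ℕ) : ℕ := ∑ t ∈ range k, (r - t)

lemma line_bound (r : ℕ) (B : Finset ℤ) :
    wt r B.card ≤ ∑ j ∈ Icc 1 r, (B.filter (fun x => x + (j : ℤ) ∉ B)).card := by
  induction B using Finset.induction_on_min with
  | empty => simp [wt]
  | insert a s ha ih =>
    have hnot : a ∉ s := fun h => lt_irrefl _ (ha a h)
    rw [card_insert_of_notMem hnot, wt, sum_range_succ]
    have h1 : ∀ j ∈ Icc 1 r, ((insert a s).filter (fun x => x + (j : ℤ) ∉ insert a s)).card
        = (s.filter (fun x => x + (j : ℤ) ∉ s)).card + (if a + (j : ℤ) ∈ s then 0 else 1) := by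
      intro j hj
      have hj1 : 1 ≤ j := (mem_Icc.1 hj).1
      have key : (insert a s).filter (fun x => x + (j : ℤ) ∉ insert a s)
          = (if a + (j : ℤ) ∈ s then ∅ else {a}) ∪ s.filter (fun x => x + (j : ℤ) ∉ s) := by
        ext x
        simp only [mem_filter, mem_insert, mem_union]
        constructor
        · rintro ⟨hx | hx, h⟩
          · subst hx
            left
            push Not at h
            rw [if_neg h.2]
            simp
          · right
            exact ⟨hx, fun h' => h (Or.inr h')⟩
        · rintro (h | ⟨hx, h⟩)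
          · split_ifs at h with h'
            · simp at h
            · simp only [mem_singleton] at h
              subst h
              refine ⟨Or.inl rfl, ?_⟩
              rintro (h'' | h'')
              · omega
              · exact h' h''
          · refine ⟨Or.inr hx, ?_⟩
            rintro (h' | h')
            · have := ha x hx
              omega
            · exact h h'
      rw [key, card_union_of_disjoint]
      · split_ifs <;> simp [add_comm]
      · split_ifs
        · simp
        · simp [hnot]
    rw [sum_congr rfl h1, sum_add_distrib]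
    have h2 : r - s.card ≤ ∑ j ∈ Icc 1 r, (if a + (j : ℤ) ∈ s then 0 else 1) := by
      have h3 : ∑ j ∈ Icc 1 r, (if a + (j : ℤ) ∈ s then 0 else 1)
          = ((Icc 1 r).filter (fun j : ℕ => ¬ (a + (j : ℤ) ∈ s))).card := by
        rw [card_filter]
        apply sum_congr rfl
        intro j _
        by_cases h : a + (j : ℤ) ∈ s <;> simp [h]
      have h4 : ((Icc 1 r).filter (fun j : ℕ => (a + (j : ℤ) ∈ s))).card ≤ s.card := by
        apply card_le_card_of_injOn (fun j : ℕ => a + (j : ℤ))
        · intro j hj
          simp only [coe_filter, Set.mem_setOf_eq] at hj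
          exact hj.2
        · intro i _ j _ h
          simpa using h
      have h5 := Finset.card_filter_add_card_filter_not (s := Icc 1 r) (fun j : ℕ => (a + (j : ℤ) ∈ s))
      rw [Nat.card_Icc] at h5
      rw [h3]
      omega
    have := ih
    unfold wt at this
    omega

lemma wt_mono (r : ℕ) {a b : ℕ} (h : a ≤ b) : wt r a ≤ wt r b := by
  unfold wt
  exact sum_le_sum_of_subset (range_mono h)

lemma wt_eq (r k : ℕ) (h : k ≤ r) : (2 * wt r k : ℤ) = 2 * r * k - k * (k - 1) := by
  induction k with
  | zero => simp [wt]
  | succ k ih =>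
    have := ih (by omega)
    unfold wt at this ⊢
    rw [sum_range_succ]
    push_cast [Nat.cast_sub (show k ≤ r by omega)] at this ⊢
    linarith

lemma wt_lower (r k : ℕ) : ((r : ℝ) + 1) / 2 * (min k r : ℕ) ≤ wt r k := by
  rcases le_total k r with h | h
  · rw [min_eq_left h]
    have h1 := wt_eq r k h
    have h2 : (2 * (wt r k : ℝ)) = 2 * r * k - k * (k - 1) := by exact_mod_cast h1
    have h3 : (k : ℝ) ≤ r := by exact_mod_cast h
    have h4 : (0 : ℝ) ≤ k := by positivity
    nlinarith
  · rw [min_eq_right h]
    have h1 := wt_eq r r le_rfl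
    have h2 : (2 * (wt r r : ℝ)) = 2 * r * r - r * (r - 1) := by exact_mod_cast h1
    have h5 : (wt r r : ℝ) ≤ wt r k := by exact_mod_cast wt_mono r h
    nlinarith

end Pool.Agent.Lib.MP_602b76_co_Never
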