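import Pool.Agent.Lib.MP_602b76_co_Never.Part1

namespace Pool.Agent.Lib.MP_602b76_co_Never

open Finset

/-- projection along the `i`-th coordinate direction -/
def pr {D : ℕ} (i : Fin D) (x : Fin D → ℤ) : Fin D → ℤ := Function.update x i 0

/-- points of `A` on the line with projection `y` -/
def fib {D : ℕ} (A : Finset (Fin D → ℤ)) (i : Fin D) (y : Fin D → ℤ) : Finset (Fin D → ℤ) :=
  A.filter (fun x => pr i x = y)

/-- total cost in direction `i` -/
def Wi {D : ℕ} (r : ℕ) (A : Finset (Fin D → ℤ)) (i : Fin D) : ℕ :=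
  ∑ j ∈ Icc 1 r, outc A (Pi.single i (j : ℤ))

lemma pr_add_single {D : ℕ} (i : Fin D) (x : Fin D → ℤ) (z : ℤ) :
    pr i (x + Pi.single i z) = pr i x := by
  unfold pr
  ext k
  by_cases h : k = i
  · subst h; simp
  · simp [Function.update_of_ne h, Pi.single_eq_of_ne h]

lemma pr_inj {D : ℕ} (i : Fin D) {x y : Fin D → ℤ} (h : pr i x = pr i y) (h' : x i = y i) :
    x = y := by
  ext k
  by_cases hk : k = i
  · subst hk; exact h'
  · have := congrFun h k
    simpa [pr, Function.update_of_ne hk] using this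

lemma Wi_lower {D : ℕ} (r : ℕ) (A : Finset (Fin D → ℤ)) (i : Fin D) :
    ∑ y ∈ A.image (pr i), wt r (fib A i y).card ≤ Wi r A i := by
  have h1 : Wi r A i = ∑ y ∈ A.image (pr i), ∑ j ∈ Icc 1 r,
      ((A.filter (fun x => x + Pi.single i (j : ℤ) ∉ A)).filter (fun x => pr i x = y)).card := by
    unfold Wi outc
    rw [Finset.sum_comm]
    apply sum_congr rfl
    intro j _
    apply card_eq_sum_card_fiberwise
    intro x hx
    simp only [coe_filter, Set.mem_setOf_eq] at hx
    exact mem_coe.2 (mem_image_of_mem _ hx.1)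
  rw [h1]
  apply sum_le_sum
  intro y _
  set B : Finset ℤ := (fib A i y).image (fun x => x i) with hB
  have hcard : B.card = (fib A i y).card := by
    rw [hB]
    apply card_image_of_injOn
    intro a ha b hb hab
    simp only [fib, coe_filter, Set.mem_setOf_eq] at ha hb
    exact pr_inj i (ha.2.trans hb.2.symm) hab
  rw [← hcard]
  refine (line_bound r B).trans ?_
  apply sum_le_sum
  intro j _
  have hsub : B.filter (fun x => x + (j : ℤ) ∉ B) ⊆
      ((A.filter (fun x => x + Pi.single i (j : ℤ) ∉ A)).filter (fun x => pr i x = y)).image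
        (fun x => x i) := by
    intro z hz
    simp only [mem_filter, hB, mem_image, fib] at hz
    obtain ⟨⟨x, ⟨hxA, hxy⟩, rfl⟩, hz2⟩ := hz
    simp only [mem_image, mem_filter]
    refine ⟨x, ⟨⟨hxA, ?_⟩, hxy⟩, rfl⟩
    intro hcon
    apply hz2
    refine ⟨x + Pi.single i (j : ℤ), ⟨hcon, ?_⟩, by simp⟩
    rw [pr_add_single, hxy]
  exact (card_le_card hsub).trans card_image_le

/-- slice of `A` at height `t` in the coordinate `0` -/
def sl {D : ℕ} (A : Finset (Fin (D + 1) → ℤ)) (t : ℤ) : Finset (Fin D → ℤ) :=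
  (A.filter (fun x => x 0 = t)).image Fin.tail

lemma mem_sl {D : ℕ} (A : Finset (Fin (D + 1) → ℤ)) (t : ℤ) (y : Fin D → ℤ) :
    y ∈ sl A t ↔ Fin.cons t y ∈ A := by
  simp only [sl, mem_image, mem_filter]
  constructor
  · rintro ⟨x, ⟨hx, hx0⟩, rfl⟩
    rw [← hx0, Fin.cons_self_tail]
    exact hx
  · intro h
    exact ⟨Fin.cons t y, ⟨h, by simp⟩, by simp⟩

lemma card_sl {D : ℕ} (A : Finset (Fin (D + 1) → ℤ)) :
    ∑ t ∈ A.image (fun x => x 0), (sl A t).card = A.card := by
  rw [card_eq_sum_card_image (fun x => x 0) A]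
  apply sum_congr rfl
  intro t _
  unfold sl
  rw [card_image_of_injOn]
  intro a ha b hb hab
  simp only [coe_filter, Set.mem_setOf_eq] at ha hb
  rw [← Fin.cons_self_tail a, ← Fin.cons_self_tail b, hab, ha.2, hb.2]

lemma sl_subset {D : ℕ} (A : Finset (Fin (D + 1) → ℤ)) (t : ℤ) :
    sl A t ⊆ A.image Fin.tail := by
  unfold sl
  exact image_subset_image (filter_subset _ _)

lemma pr_zero_card {D : ℕ} (A : Finset (Fin (D + 1) → ℤ)) :
    (A.image (pr 0)).card = (A.image Fin.tail).card := by
  have h : A.image (pr 0) = (A.image Fin.tail).image (fun y => (Fin.cons (0 : ℤ) y : Fin (D + 1) → ℤ)) := by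
    rw [image_image]
    apply image_congr
    intro x _
    simp only [Function.comp, pr]
    ext k
    refine Fin.cases ?_ (fun k => ?_) k
    · simp
    · simp [Fin.tail]
  rw [h, card_image_of_injective]
  intro a b hab
  have := congrArg Fin.tail hab
  simpa using this

lemma pr_succ_card {D : ℕ} (A : Finset (Fin (D + 1) → ℤ)) (k : Fin D) :
    ∑ t ∈ A.image (fun x => x 0), ((sl A t).image (pr k)).card ≤ (A.image (pr k.succ)).card := by
  have h1 : (A.image (pr k.succ)).card
      = ∑ t ∈ A.image (fun x => x 0), ((A.image (pr k.succ)).filter (fun x => x 0 = t)).card := by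
    apply card_eq_sum_card_fiberwise
    intro x hx
    simp only [coe_image, Set.mem_image, mem_coe] at hx ⊢
    obtain ⟨y, hy, rfl⟩ := hx
    refine ⟨y, hy, ?_⟩
    simp only [pr]
    rw [Function.update_of_ne (Fin.succ_ne_zero k).symm]
  rw [h1]
  apply sum_le_sum
  intro t _
  have hsub : ((sl A t).image (pr k)).image (fun y => (Fin.cons t y : Fin (D + 1) → ℤ)) ⊆
      (A.image (pr k.succ)).filter (fun x => x 0 = t) := by
    intro z hz
    simp only [mem_image] at hz
    obtain ⟨y, ⟨w, hw, rfl⟩, rfl⟩ := hz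
    rw [mem_sl] at hw
    simp only [mem_filter, mem_image]
    refine ⟨⟨_, hw, ?_⟩, by simp⟩
    simp only [pr]
    ext l
    refine Fin.cases ?_ (fun l => ?_) l
    · rw [Function.update_of_ne (Fin.succ_ne_zero k).symm]
      simp
    · by_cases hl : l = k
      · subst hl; simp
      · have : l.succ ≠ k.succ := fun h => hl (Fin.succ_injective _ h)
        simp [Function.update_of_ne this, Function.update_of_ne hl]
  rw [← card_image_of_injective ((sl A t).image (pr k)) (f := fun y => (Fin.cons t y : Fin (D + 1) → ℤ))]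
  · exact card_le_card hsub
  · intro a b hab
    have := congrArg Fin.tail hab
    simpa using this

end Pool.Agent.Lib.MP_602b76_co_Never
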