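import Pool.Agent.Lib.MP_602b76_co_Never.Part2

namespace Pool.Agent.Lib.MP_602b76_co_Never

open Finset

lemma exists_root (D : ℕ) (x : ℝ) (hx : 0 ≤ x) : ∃ y : ℝ, 0 ≤ y ∧ y ^ (D + 1) = x :=
  ⟨x ^ (((D + 1 : ℕ) : ℝ)⁻¹), Real.rpow_nonneg hx _,
    Real.rpow_inv_natCast_pow hx (Nat.succ_ne_zero D)⟩

lemma amgm (k : ℕ) (x y : ℝ) (hx : 0 ≤ x) (hy : 0 ≤ y) :
    ((k : ℝ) + 1) * (x * y ^ k) ≤ x ^ (k + 1) + k * y ^ (k + 1) := by
  rcases hy.eq_or_lt with h | h
  · subst h
    rcases Nat.eq_zero_or_pos k with hk | hk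
    · subst hk; simp
    · rw [zero_pow (by omega), zero_pow (by omega)]
      have : 0 ≤ x ^ (k + 1) := by positivity
      simpa using this
  · have h1 : -2 ≤ x / y - 1 := by
      have : 0 ≤ x / y := by positivity
      linarith
    have h2 := one_add_mul_le_pow h1 (k + 1)
    have h3 : (1 + (x / y - 1)) = x / y := by ring
    rw [h3, div_pow] at h2
    have h4 : 0 < y ^ (k + 1) := by positivity
    rw [le_div_iff₀ h4] at h2
    have h5 : (1 + ((k + 1 : ℕ) : ℝ) * (x / y - 1)) * y ^ (k + 1)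
        = ((k : ℝ) + 1) * (x * y ^ k) - k * y ^ (k + 1) := by
      push_cast
      field_simp
      ring
    rw [h5] at h2
    linarith

lemma iso_real (D : ℕ) (γ ν s n Q M : ℝ) (hγ : 0 < γ) (hν : 0 ≤ ν) (hνs : ν ≤ s)
    (hM : γ ^ (D + 1) = M) (hn : ν ^ (D + 2) = n) (h1 : ((D : ℝ) + 1) * n ≤ Q * γ) :
    ((D : ℝ) + 2) * n ≤ (M + Q) * s := by
  have h5 := amgm (D + 1) γ ν hγ.le hν
  have h6 : ((D + 1 : ℕ) : ℝ) = (D : ℝ) + 1 := by push_cast; ring
  rw [h6] at h5
  have h9 : ((D : ℝ) + 2) * (γ * ν ^ (D + 1)) ≤ γ ^ (D + 2) + Q * γ := by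
    rw [← hn] at h1
    have h11 : ((D : ℝ) + 1 + 1) * (γ * ν ^ (D + 1)) = ((D : ℝ) + 2) * (γ * ν ^ (D + 1)) := by ring
    rw [h11] at h5
    exact h5.trans (add_le_add le_rfl h1)
  have h7 : ((D : ℝ) + 2) * n * γ ≤ (M + Q) * s * γ := by
    have h8 : (M + Q) * s * γ = (γ ^ (D + 2) + Q * γ) * s := by
      rw [← hM]; ring
    rw [h8]
    have h10 : ((D : ℝ) + 2) * n * γ = ((D : ℝ) + 2) * (γ * ν ^ (D + 1)) * ν := by
      rw [← hn]; ring
    rw [h10]
    apply mul_le_mul h9 hνs hν
    have : 0 ≤ ((D : ℝ) + 2) * (γ * ν ^ (D + 1)) := by positivity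
    exact this.trans h9
  exact le_of_mul_le_mul_right h7 hγ

lemma iso : ∀ (D : ℕ) (A : Finset (Fin (D + 1) → ℤ)) (s : ℝ), 0 ≤ s →
    (A.card : ℝ) ≤ s ^ (D + 1) →
    ((D : ℝ) + 1) * A.card ≤ (∑ i, ((A.image (pr i)).card : ℝ)) * s := by
  intro D
  induction D with
  | zero =>
    intro A s hs hA
    rcases A.eq_empty_or_nonempty with h | h
    · subst h; simp
    · have h1 : 1 ≤ (A.image (pr 0)).card := card_pos.2 (h.image _)
      have h2 : (1 : ℝ) ≤ (A.image (pr 0)).card := by exact_mod_cast h1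
      simp only [zero_add, pow_one] at hA
      simp only [Nat.reduceAdd, univ_unique, Fin.default_eq_zero, sum_singleton]
      push_cast
      nlinarith
  | succ D ih =>
    intro A s hs hA
    rw [Fin.sum_univ_succ]
    set M := (A.image Fin.tail).card with hM
    rw [pr_zero_card, ← hM]
    obtain ⟨γ, hγ, hγM⟩ := exists_root D (M : ℝ) (by positivity)
    obtain ⟨ν, hν, hνn⟩ := exists_root (D + 1) (A.card : ℝ) (by positivity)
    have hνs : ν ≤ s := by
      rw [← hνn] at hA
      exact le_of_pow_le_pow_left₀ (by omega) hs hA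
    set Q := ∑ k : Fin (D + 1), ((A.image (pr k.succ)).card : ℝ) with hQ
    have h1 : ((D : ℝ) + 1) * A.card ≤ Q * γ := by
      have h2 : ∀ t ∈ A.image (fun x => x 0), ((D : ℝ) + 1) * (sl A t).card
          ≤ (∑ k, (((sl A t).image (pr k)).card : ℝ)) * γ := by
        intro t _
        apply ih _ _ hγ
        rw [hγM]
        exact_mod_cast card_le_card (sl_subset A t)
      have h3 := sum_le_sum h2
      rw [← mul_sum, ← sum_mul] at h3
      have h4 : ∑ t ∈ A.image (fun x => x 0), ((sl A t).card : ℝ) = A.card := by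
        exact_mod_cast card_sl A
      rw [h4] at h3
      refine h3.trans (mul_le_mul_of_nonneg_right ?_ hγ)
      rw [sum_comm]
      apply sum_le_sum
      intro k _
      exact_mod_cast pr_succ_card A k
    rcases hγ.eq_or_lt with h | h
    · have hM0 : (M : ℝ) = 0 := by rw [← hγM, ← h]; simp
      have hM1 : M = 0 := by exact_mod_cast hM0
      rw [hM, card_eq_zero, image_eq_empty] at hM1
      have hS : 0 ≤ Q := sum_nonneg (fun _ _ => by positivity)
      have h0 : (A.card : ℝ) = 0 := by rw [hM1]; simp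
      rw [h0, mul_zero]
      exact mul_nonneg (add_nonneg (Nat.cast_nonneg _) hS) hs
    · have h6 : ((D + 1 : ℕ) : ℝ) + 1 = (D : ℝ) + 2 := by push_cast; ring
      rw [h6]
      exact iso_real D γ ν s _ _ _ h hν hνs hγM hνn h1

/-- total cost of a set in `ℤ^D` for the steps `j e_i`, `1 ≤ j ≤ r` -/
def W {D : ℕ} (r : ℕ) (A : Finset (Fin D → ℤ)) : ℕ := ∑ i, Wi r A i

/-- the lower bound function -/
noncomputable def Phi (D r : ℕ) (a : ℝ) : ℝ :=
  ((r : ℝ) + 1) / 2 * min (r * ((D : ℝ) + 1) * a ^ ((D : ℝ) / (D + 1))) a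

lemma root_rpow (D : ℕ) (s : ℝ) (hs : 0 ≤ s) : (s ^ (D + 1)) ^ ((D : ℝ) / (D + 1)) = s ^ D := by
  rw [← Real.rpow_natCast, ← Real.rpow_mul hs, ← Real.rpow_natCast]
  congr 1
  push_cast
  field_simp

lemma Wi_lower2 {D : ℕ} (r : ℕ) (A : Finset (Fin D → ℤ)) (i : Fin D) :
    ((r : ℝ) + 1) / 2 * (r * ((A.filter (fun x => ∀ k, r ≤ (fib A k (pr k x)).card)).image (pr i)).card
      + (A.filter (fun x => (fib A i (pr i x)).card < r)).card) ≤ Wi r A i := by
  have h1 : (∑ y ∈ A.image (pr i), wt r (fib A i y).card : ℝ) ≤ Wi r A i := by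
    exact_mod_cast Wi_lower r A i
  refine le_trans ?_ h1
  have h2 : ∑ y ∈ A.image (pr i), ((r : ℝ) + 1) / 2 * (min (fib A i y).card r : ℕ)
      ≤ ∑ y ∈ A.image (pr i), (wt r (fib A i y).card : ℝ) :=
    sum_le_sum (fun y _ => wt_lower r _)
  refine le_trans ?_ h2
  rw [← mul_sum]
  apply mul_le_mul_of_nonneg_left _ (by positivity)
  rw [← sum_filter_add_sum_filter_not (A.image (pr i)) (fun y => r ≤ (fib A i y).card)]
  apply add_le_add
  · have h3 : ((A.filter (fun x => ∀ k, r ≤ (fib A k (pr k x)).card)).image (pr i)) ⊆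
        (A.image (pr i)).filter (fun y => r ≤ (fib A i y).card) := by
      intro y hy
      simp only [mem_image, mem_filter] at hy ⊢
      obtain ⟨x, ⟨hx, hx2⟩, rfl⟩ := hy
      exact ⟨⟨x, hx, rfl⟩, hx2 i⟩
    have h4 : (((A.filter (fun x => ∀ k, r ≤ (fib A k (pr k x)).card)).image (pr i)).card : ℝ) ≤
        ((A.image (pr i)).filter (fun y => r ≤ (fib A i y).card)).card := by
      exact_mod_cast card_le_card h3
    calc (r : ℝ) * _ ≤ r * ((A.image (pr i)).filter (fun y => r ≤ (fib A i y).card)).card :=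
          mul_le_mul_of_nonneg_left h4 (by positivity)
      _ = ∑ y ∈ (A.image (pr i)).filter (fun y => r ≤ (fib A i y).card), (r : ℝ) := by
          rw [sum_const, nsmul_eq_mul, mul_comm]
      _ ≤ _ := by
          apply sum_le_sum
          intro y hy
          rw [mem_filter] at hy
          rw [min_eq_right hy.2]
  · have h5 : (A.filter (fun x => (fib A i (pr i x)).card < r)).card
        = ∑ y ∈ (A.image (pr i)).filter (fun y => ¬ r ≤ (fib A i y).card), (fib A i y).card := by
      rw [card_eq_sum_card_fiberwise (f := pr i)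
        (t := (A.image (pr i)).filter (fun y => ¬ r ≤ (fib A i y).card))]
      · apply sum_congr rfl
        intro y hy
        rw [mem_filter] at hy
        congr 1
        unfold fib
        ext x
        simp only [mem_filter]
        constructor
        · rintro ⟨⟨h, _⟩, h'⟩
          exact ⟨h, h'⟩
        · rintro ⟨h, rfl⟩
          refine ⟨⟨h, ?_⟩, rfl⟩
          exact not_le.1 hy.2
      · intro x hx
        simp only [coe_filter, Set.mem_setOf_eq, mem_image] at hx ⊢
        exact ⟨⟨x, hx.1, rfl⟩, not_le.2 hx.2⟩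
    rw [h5]
    push_cast
    apply sum_le_sum
    intro y hy
    rw [mem_filter] at hy
    have h6 : (fib A i y).card ≤ r := (not_le.1 hy.2).le
    have h7 : (fib A i y).card ≤ min (fib A i y).card r := le_min le_rfl h6
    exact_mod_cast h7

lemma W_lower (D r : ℕ) (A : Finset (Fin (D + 1) → ℤ)) :
    Phi D r A.card ≤ W r A := by
  set A' := A.filter (fun x => ∀ k, r ≤ (fib A k (pr k x)).card) with hA'
  set X : Fin (D + 1) → Finset (Fin (D + 1) → ℤ) :=
    fun i => A.filter (fun x => (fib A i (pr i x)).card < r) with hX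
  have h1 : ((r : ℝ) + 1) / 2 * (r * (∑ i, ((A'.image (pr i)).card : ℝ)) + ∑ i, ((X i).card : ℝ))
      ≤ W r A := by
    unfold W
    push_cast
    rw [mul_add, ← mul_assoc, mul_sum, mul_sum, ← sum_add_distrib]
    apply sum_le_sum
    intro i _
    have := Wi_lower2 r A i
    rw [mul_add, ← mul_assoc] at this
    exact this
  have h2 : (A.card : ℝ) ≤ A'.card + ∑ i, ((X i).card : ℝ) := by
    have h3 : A ⊆ A' ∪ univ.biUnion X := by
      intro x hx
      simp only [mem_union, mem_biUnion, mem_univ, true_and, hA', hX, mem_filter]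
      by_cases h : ∀ k, r ≤ (fib A k (pr k x)).card
      · exact Or.inl ⟨hx, h⟩
      · right
        push Not at h
        obtain ⟨k, hk⟩ := h
        exact ⟨k, hx, hk⟩
    have h4 := (card_le_card h3).trans (card_union_le _ _)
    have h5 := h4.trans (Nat.add_le_add_left (card_biUnion_le) _)
    exact_mod_cast h5
  refine le_trans ?_ h1
  unfold Phi
  apply mul_le_mul_of_nonneg_left _ (by positivity)
  obtain ⟨s, hs, hsA⟩ := exists_root D (A'.card : ℝ) (by positivity)
  have h3 := iso D A' s hs hsA.ge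
  have hA'A : (A'.card : ℝ) ≤ A.card := by
    exact_mod_cast card_le_card (filter_subset _ _)
  have hP0 : 0 ≤ ∑ i, ((A'.image (pr i)).card : ℝ) := sum_nonneg (fun _ _ => by positivity)
  have hx0 : 0 ≤ ∑ i, ((X i).card : ℝ) := sum_nonneg (fun _ _ => by positivity)
  have hA0 : (0 : ℝ) ≤ A.card := by positivity
  clear h1
  clear_value X
  clear_value A'
  generalize ∑ i, ((X i).card : ℝ) = x at *
  generalize ∑ i, ((A'.image (pr i)).card : ℝ) = P at *
  generalize (A'.card : ℝ) = a' at *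
  generalize (A.card : ℝ) = a at *
  rcases hs.eq_or_lt with h0 | h0
  · have h00 : a' = 0 := by rw [← hsA, ← h0, zero_pow (Nat.succ_ne_zero D)]
    refine (min_le_right _ _).trans ?_
    have : (0 : ℝ) ≤ r * P := by positivity
    linarith
  · have h4 : ((D : ℝ) + 1) * s ^ D ≤ P := by
      rw [← hsA] at h3
      have : ((D : ℝ) + 1) * s ^ D * s ≤ P * s := by
        calc ((D : ℝ) + 1) * s ^ D * s = ((D : ℝ) + 1) * s ^ (D + 1) := by ring
          _ ≤ P * s := h3
      exact le_of_mul_le_mul_right this h0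
    rcases le_total s (r * ((D : ℝ) + 1)) with h5 | h5
    · refine (min_le_right _ _).trans ?_
      have h6 : a' ≤ r * P := by
        rw [← hsA]
        calc s ^ (D + 1) = s * s ^ D := by ring
          _ ≤ (r * ((D : ℝ) + 1)) * s ^ D := mul_le_mul_of_nonneg_right h5 (by positivity)
          _ = r * (((D : ℝ) + 1) * s ^ D) := by ring
          _ ≤ r * P := mul_le_mul_of_nonneg_left h4 (by positivity)
      linarith
    · refine (min_le_left _ _).trans ?_
      obtain ⟨σ, hσ, hσA⟩ := exists_root D a hA0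
      rw [← hσA, root_rpow D σ hσ]
      have hsσ : s ≤ σ := by
        apply le_of_pow_le_pow_left₀ (n := D + 1) (by omega) hσ
        rw [hsA, hσA]
        exact hA'A
      have h7 : s * σ ^ D ≤ s ^ (D + 1) + x := by
        calc s * σ ^ D ≤ σ * σ ^ D := mul_le_mul_of_nonneg_right hsσ (by positivity)
          _ = σ ^ (D + 1) := by ring
          _ ≤ _ := by rw [hσA, hsA]; exact h2
      have h8 : (r * ((D : ℝ) + 1)) * σ ^ D * s ≤ (r * P + x) * s := by
        calc (r * ((D : ℝ) + 1)) * σ ^ D * s = (r * ((D : ℝ) + 1)) * (s * σ ^ D) := by ring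
          _ ≤ (r * ((D : ℝ) + 1)) * (s ^ (D + 1) + x) :=
              mul_le_mul_of_nonneg_left h7 (by positivity)
          _ = r * (((D : ℝ) + 1) * s ^ D) * s + (r * ((D : ℝ) + 1)) * x := by ring
          _ ≤ r * P * s + s * x := by
              apply add_le_add
              · apply mul_le_mul_of_nonneg_right _ hs
                exact mul_le_mul_of_nonneg_left h4 (by positivity)
              · exact mul_le_mul_of_nonneg_right h5 hx0
          _ = (r * P + x) * s := by ring
      exact le_of_mul_le_mul_right h8 h0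

end Pool.Agent.Lib.MP_602b76_co_Never
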