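import Pool.Agent.Lib.MP_602b76_co_Never.Part3

namespace Pool.Agent.Lib.MP_602b76_co_Never

open Finset

lemma Phi_concave (D r : ℕ) : ConcaveOn ℝ (Set.Ici 0) (Phi D r) := by
  have hp0 : 0 ≤ (D : ℝ) / (D + 1) := by positivity
  have hp1 : (D : ℝ) / (D + 1) ≤ 1 := by
    rw [div_le_one (by positivity)]
    linarith
  have h1 := (Real.concaveOn_rpow hp0 hp1).smul (c := (r : ℝ) * ((D : ℝ) + 1)) (by positivity)
  have h2 : ConcaveOn ℝ (Set.Ici (0 : ℝ)) (fun x : ℝ => x) := concaveOn_id (convex_Ici 0)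
  have h3 := (h1.inf h2).smul (c := ((r : ℝ) + 1) / 2) (by positivity)
  exact h3

lemma Phi_zero (D r : ℕ) : Phi D r 0 = 0 := by
  unfold Phi
  rw [min_eq_right, mul_zero]
  positivity

lemma concave_seg {φ : ℝ → ℝ} (hφ : ConcaveOn ℝ (Set.Ici 0) φ) {x y z : ℝ} (hx : 0 ≤ x)
    (hxy : x ≤ y) (hyz : y ≤ z) :
    (z - y) * φ x + (y - x) * φ z ≤ (z - x) * φ y := by
  rcases (hxy.trans hyz).eq_or_lt with h | h
  · have h1 : y = x := le_antisymm (by rw [h]; exact hyz) hxy
    subst h1
    subst h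
    simp
  · have hzx : 0 < z - x := by linarith
    have hx' : x ∈ Set.Ici (0 : ℝ) := hx
    have hz' : z ∈ Set.Ici (0 : ℝ) := by
      show (0 : ℝ) ≤ z
      linarith
    have ha : 0 ≤ (z - y) / (z - x) := div_nonneg (by linarith) hzx.le
    have hb : 0 ≤ (y - x) / (z - x) := div_nonneg (by linarith) hzx.le
    have hab : (z - y) / (z - x) + (y - x) / (z - x) = 1 := by field_simp; ring
    have h2 := hφ.2 hx' hz' ha hb hab
    have h3 : ((z - y) / (z - x)) • x + ((y - x) / (z - x)) • z = y := by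
      simp only [smul_eq_mul]
      field_simp
      ring
    rw [h3] at h2
    simp only [smul_eq_mul] at h2
    have h4 := mul_le_mul_of_nonneg_left h2 hzx.le
    have h5 : (z - x) * ((z - y) / (z - x) * φ x + (y - x) / (z - x) * φ z)
        = (z - y) * φ x + (y - x) * φ z := by
      field_simp
    rw [h5] at h4
    exact h4

lemma sum_min {ι : Type*} (F : Finset ι) (a : ι → ℝ) (M b : ℝ) (m : ℕ) (hb : 0 < b) (hbM : b < M)
    (ha : ∀ t ∈ F, 0 ≤ a t ∧ a t ≤ M) (hsum : ∑ t ∈ F, a t = m * M + b) :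
    (m + 1) * b ≤ ∑ t ∈ F, min (a t) b := by
  classical
  set P := F.filter (fun t => b < a t) with hP
  have h1 : ∑ t ∈ F, min (a t) b = P.card * b + ∑ t ∈ F.filter (fun t => ¬ b < a t), a t := by
    rw [← sum_filter_add_sum_filter_not F (fun t => b < a t)]
    congr 1
    · rw [← nsmul_eq_mul, ← sum_const]
      apply sum_congr rfl
      intro t ht
      rw [mem_filter] at ht
      exact min_eq_right ht.2.le
    · apply sum_congr rfl
      intro t ht
      rw [mem_filter] at ht
      exact min_eq_left (not_lt.1 ht.2)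
  have h2 : ∑ t ∈ F, a t = ∑ t ∈ P, a t + ∑ t ∈ F.filter (fun t => ¬ b < a t), a t :=
    (sum_filter_add_sum_filter_not F (fun t => b < a t) _).symm
  have h3 : ∑ t ∈ P, a t ≤ P.card * M := by
    rw [← nsmul_eq_mul, ← sum_const]
    apply sum_le_sum
    intro t ht
    rw [hP, mem_filter] at ht
    exact (ha t ht.1).2
  have h4 : 0 ≤ ∑ t ∈ F.filter (fun t => ¬ b < a t), a t := by
    apply sum_nonneg
    intro t ht
    rw [mem_filter] at ht
    exact (ha t ht.1).1
  rw [h1]
  rcases Nat.lt_or_ge m P.card with h | h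
  · have h5 : ((m : ℝ) + 1) ≤ P.card := by exact_mod_cast h
    have h6 : ((m : ℝ) + 1) * b ≤ P.card * b := mul_le_mul_of_nonneg_right h5 hb.le
    linarith
  · have h5 : (P.card : ℝ) ≤ m := by exact_mod_cast h
    have h6 : 0 ≤ ((m : ℝ) - P.card) * (M - b) := by
      apply mul_nonneg <;> linarith
    nlinarith

lemma major {ι : Type*} (F : Finset ι) (a : ι → ℝ) {φ : ℝ → ℝ} (hφ : ConcaveOn ℝ (Set.Ici 0) φ)
    (h0 : φ 0 = 0) (M b : ℝ) (m : ℕ) (hb : 0 < b) (hbM : b < M)
    (ha : ∀ t ∈ F, 0 ≤ a t ∧ a t ≤ M) (hsum : ∑ t ∈ F, a t = m * M + b) :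
    m * φ M + φ b ≤ ∑ t ∈ F, φ (a t) := by
  have key : ∀ t ∈ F, b * (φ M - φ b) * a t + (M * φ b - b * φ M) * min (a t) b
      ≤ b * (M - b) * φ (a t) := by
    intro t ht
    obtain ⟨h1, h2⟩ := ha t ht
    rcases le_total (a t) b with h | h
    · rw [min_eq_left h]
      have h3 := concave_seg hφ le_rfl h1 h
      rw [h0] at h3
      have h4 : 0 < M - b := by linarith
      have h5 := mul_le_mul_of_nonneg_left h3 h4.le
      nlinarith
    · rw [min_eq_right h]
      have h3 := concave_seg hφ hb.le h h2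
      have h5 := mul_le_mul_of_nonneg_left h3 hb.le
      nlinarith
  have h1 := sum_le_sum key
  rw [sum_add_distrib, ← mul_sum, ← mul_sum, ← mul_sum, hsum] at h1
  have h2 := sum_min F a M b m hb hbM ha hsum
  have h3 : 0 ≤ M * φ b - b * φ M := by
    have := concave_seg hφ le_rfl hb.le hbM.le
    rw [h0] at this
    linarith
  have h4 := mul_le_mul_of_nonneg_left h2 h3
  have h5 : 0 < b * (M - b) := mul_pos hb (by linarith)
  have h6 : b * (M - b) * (m * φ M + φ b) ≤ b * (M - b) * ∑ t ∈ F, φ (a t) := by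
    calc b * (M - b) * (m * φ M + φ b) = b * (φ M - φ b) * (m * M + b)
          + (M * φ b - b * φ M) * ((m + 1) * b) := by ring
      _ ≤ b * (φ M - φ b) * (m * M + b) + (M * φ b - b * φ M) * ∑ t ∈ F, min (a t) b := by
          linarith
      _ ≤ _ := h1
  exact le_of_mul_le_mul_left h6 h5

lemma linear_bound {ι : Type*} (F : Finset ι) (a : ι → ℝ) {φ : ℝ → ℝ}
    (hφ : ConcaveOn ℝ (Set.Ici 0) φ) (h0 : φ 0 = 0) (M n : ℝ)
    (ha : ∀ t ∈ F, 0 ≤ a t ∧ a t ≤ M) (hsum : ∑ t ∈ F, a t = n) :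
    n * φ M ≤ M * ∑ t ∈ F, φ (a t) := by
  rw [← hsum, mul_sum, sum_mul]
  apply sum_le_sum
  intro t ht
  have := concave_seg hφ le_rfl (ha t ht).1 (ha t ht).2
  rw [h0] at this
  linarith

/-- the generating set: `e_0` and the vectors `j e_i` with `i ≠ 0`, `1 ≤ j ≤ r` -/
def gen (D r : ℕ) : Finset (Fin (D + 2) → ℤ) :=
  insert (Pi.single 0 1)
    (((univ : Finset (Fin (D + 1))) ×ˢ Icc 1 r).image (fun p => Pi.single p.1.succ (p.2 : ℤ)))

lemma gen_nonneg (D r : ℕ) : ∀ u ∈ gen D r, (∀ i, 0 ≤ u i) ∧ u ≠ 0 := by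
  intro u hu
  simp only [gen, mem_insert, mem_image, mem_product, mem_univ, true_and, mem_Icc, Prod.exists] at hu
  rcases hu with rfl | ⟨i, j, ⟨hj, _⟩, rfl⟩
  · refine ⟨fun i => ?_, ?_⟩
    · by_cases h : i = 0
      · subst h; simp
      · rw [Pi.single_eq_of_ne h]
    · intro h
      have := congrFun h 0
      simp at this
  · refine ⟨fun k => ?_, ?_⟩
    · by_cases h : k = i.succ
      · subst h; simp
      · rw [Pi.single_eq_of_ne h]
    · intro h
      have := congrFun h i.succ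
      simp at this
      omega

lemma gen_neg (D r : ℕ) : ∀ u ∈ gen D r, -u ∉ gen D r := by
  intro u hu hu'
  obtain ⟨h1, h2⟩ := gen_nonneg D r u hu
  obtain ⟨h3, h4⟩ := gen_nonneg D r _ hu'
  apply h2
  ext i
  have a1 := h1 i
  have a2 := h3 i
  simp only [Pi.neg_apply] at a2
  simp only [Pi.zero_apply]
  omega

lemma gen_zero (D r : ℕ) : (0 : Fin (D + 2) → ℤ) ∉ gen D r :=
  fun h => (gen_nonneg D r 0 h).2 rfl

lemma gen_closure (D r : ℕ) (hr : 1 ≤ r) :
    AddSubgroup.closure (gen D r : Set (Fin (D + 2) → ℤ)) = ⊤ := by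
  rw [eq_top_iff]
  intro x _
  have h1 : x = ∑ i, x i • (Pi.single i (1 : ℤ) : Fin (D + 2) → ℤ) := by
    ext k
    simp [Finset.sum_apply, Pi.single_apply]
  rw [h1]
  apply AddSubgroup.sum_mem
  intro i _
  apply AddSubgroup.zsmul_mem
  apply AddSubgroup.subset_closure
  simp only [gen, coe_insert, Set.mem_insert_iff, mem_coe, mem_image, mem_product, mem_univ,
    true_and, mem_Icc, Prod.exists]
  refine Fin.cases ?_ (fun i => ?_) i
  · left; rfl
  · right
    exact ⟨i, 1, ⟨le_rfl, hr⟩, by simp⟩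

lemma sum_gen (D r : ℕ) (S : Finset (Fin (D + 2) → ℤ)) :
    ∑ u ∈ gen D r, outc S u = outc S (Pi.single 0 1) + ∑ i : Fin (D + 1), Wi r S i.succ := by
  unfold gen
  rw [sum_insert, sum_image, sum_product]
  · rfl
  · rintro ⟨i, j⟩ h1 ⟨i', j'⟩ h2 h
    simp only [coe_product, Set.mem_prod, mem_coe, mem_univ, true_and, mem_Icc] at h1 h2
    simp only at h
    by_cases hi : i = i'
    · subst hi
      have := congrFun h i.succ
      simp at this
      rw [this]
    · exfalso
      have := congrFun h i.succ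
      rw [Pi.single_eq_same, Pi.single_eq_of_ne (fun h' => hi (Fin.succ_injective _ h'))] at this
      omega
  · intro h
    simp only [mem_image, mem_product, mem_univ, true_and, mem_Icc, Prod.exists] at h
    obtain ⟨i, j, ⟨h1, _⟩, h2⟩ := h
    have := congrFun h2 0
    rw [Pi.single_eq_same, Pi.single_eq_of_ne (Fin.succ_ne_zero i).symm] at this
    omega

lemma outc_zero_lower (D : ℕ) (S : Finset (Fin (D + 1) → ℤ)) :
    (S.image Fin.tail).card ≤ outc S (Pi.single 0 1) := by
  have h1 := Wi_lower 1 S 0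
  have h2 : Wi 1 S 0 = outc S (Pi.single 0 1) := by
    unfold Wi
    simp
  rw [h2] at h1
  refine le_trans ?_ h1
  rw [← pr_zero_card, card_eq_sum_ones]
  apply sum_le_sum
  intro y hy
  have h3 : 1 ≤ (fib S 0 y).card := by
    rw [mem_image] at hy
    obtain ⟨x, hx, rfl⟩ := hy
    exact card_pos.2 ⟨x, by simp [fib, hx]⟩
  have h4 := wt_mono 1 h3
  refine le_trans ?_ h4
  simp [wt]

lemma outc_slices (D : ℕ) (S : Finset (Fin (D + 1) → ℤ)) (k : Fin D) (j : ℤ) :
    ∑ t ∈ S.image (fun x => x 0), outc (sl S t) (Pi.single k j)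
      ≤ outc S (Pi.single k.succ j) := by
  have h1 : outc S (Pi.single k.succ j) = ∑ t ∈ S.image (fun x => x 0),
      ((S.filter (fun x => x + Pi.single k.succ j ∉ S)).filter (fun x => x 0 = t)).card := by
    unfold outc
    apply card_eq_sum_card_fiberwise
    intro x hx
    simp only [coe_filter, Set.mem_setOf_eq] at hx
    exact mem_coe.2 (mem_image_of_mem _ hx.1)
  rw [h1]
  apply sum_le_sum
  intro t _
  unfold outc
  apply card_le_card_of_injOn (fun y => (Fin.cons t y : Fin (D + 1) → ℤ))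
  · intro y hy
    simp only [coe_filter, Set.mem_setOf_eq, mem_sl, mem_filter] at hy ⊢
    refine ⟨⟨hy.1, ?_⟩, by simp⟩
    intro hcon
    apply hy.2
    have : (Fin.cons t (y + Pi.single k j) : Fin (D + 1) → ℤ)
        = Fin.cons t y + Pi.single k.succ j := by
      ext l
      refine Fin.cases ?_ (fun l => ?_) l
      · simp [Pi.single_eq_of_ne (Fin.succ_ne_zero k).symm]
      · simp only [Fin.cons_succ, Pi.add_apply]
        by_cases hl : l = k
        · subst hl; simp
        · rw [Pi.single_eq_of_ne hl, Pi.single_eq_of_ne (fun h' => hl (Fin.succ_injective _ h'))]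
    rw [this]
    exact hcon
  · intro a _ b _ hab
    have := congrArg Fin.tail hab
    simpa using this

/-- basic lower bound for the cost of a set in terms of its slices -/
lemma cost_lower (D r : ℕ) (S : Finset (Fin (D + 2) → ℤ)) :
    ((S.image Fin.tail).card : ℝ) + ∑ t ∈ S.image (fun x => x 0), Phi D r ((sl S t).card)
      ≤ ((∑ u ∈ gen D r, outc S u : ℕ) : ℝ) := by
  rw [sum_gen]
  push_cast
  apply add_le_add
  · exact_mod_cast outc_zero_lower (D + 1) S
  · calc ∑ t ∈ S.image (fun x => x 0), Phi D r ((sl S t).card)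
        ≤ ∑ t ∈ S.image (fun x => x 0), (W r (sl S t) : ℝ) :=
          sum_le_sum (fun t _ => W_lower D r (sl S t))
      _ = ((∑ t ∈ S.image (fun x => x 0), W r (sl S t) : ℕ) : ℝ) := by push_cast; rfl
      _ ≤ ((∑ i : Fin (D + 1), Wi r S i.succ : ℕ) : ℝ) := by
          have : ∑ t ∈ S.image (fun x => x 0), W r (sl S t)
              ≤ ∑ i : Fin (D + 1), Wi r S i.succ := by
            unfold W
            rw [sum_comm]
            apply sum_le_sum
            intro i _
            unfold Wi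
            rw [sum_comm]
            apply sum_le_sum
            intro j _
            exact outc_slices (D + 1) S i (j : ℤ)
          exact_mod_cast this
      _ = _ := by push_cast; rfl

lemma slice_facts (D : ℕ) (S : Finset (Fin (D + 2) → ℤ)) :
    (∀ t ∈ S.image (fun x => x 0), (0 : ℝ) ≤ (sl S t).card ∧
      ((sl S t).card : ℝ) ≤ (S.image Fin.tail).card) ∧
    ∑ t ∈ S.image (fun x => x 0), ((sl S t).card : ℝ) = S.card := by
  refine ⟨fun t _ => ⟨by positivity, by exact_mod_cast card_le_card (sl_subset S t)⟩, ?_⟩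
  exact_mod_cast card_sl S

lemma L1 (D r : ℕ) (S : Finset (Fin (D + 2) → ℤ)) :
    (S.card : ℝ) * Phi D r ((S.image Fin.tail).card) + ((S.image Fin.tail).card : ℝ) ^ 2
      ≤ (S.image Fin.tail).card * ((∑ u ∈ gen D r, outc S u : ℕ) : ℝ) := by
  have h1 := cost_lower D r S
  obtain ⟨h2, h3⟩ := slice_facts D S
  have h4 := linear_bound _ _ (Phi_concave D r) (Phi_zero D r) _ _ h2 h3
  have h5 : (0 : ℝ) ≤ (S.image Fin.tail).card := by positivity
  have h6 := mul_le_mul_of_nonneg_left h1 h5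
  rw [mul_add] at h6
  have h7 : ((S.image Fin.tail).card : ℝ) * (S.image Fin.tail).card
      = ((S.image Fin.tail).card : ℝ) ^ 2 := by ring
  rw [h7] at h6
  linarith

lemma L2 (D r m : ℕ) (S : Finset (Fin (D + 2) → ℤ))
    (hm1 : (m : ℝ) * (S.image Fin.tail).card < S.card)
    (hm2 : (S.card : ℝ) < (m + 1) * (S.image Fin.tail).card) :
    ((S.image Fin.tail).card : ℝ) + (m * Phi D r ((S.image Fin.tail).card)
        + Phi D r (S.card - m * (S.image Fin.tail).card))
      ≤ ((∑ u ∈ gen D r, outc S u : ℕ) : ℝ) := by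
  have h1 := cost_lower D r S
  obtain ⟨h2, h3⟩ := slice_facts D S
  refine le_trans ?_ h1
  apply add_le_add le_rfl
  apply major _ _ (Phi_concave D r) (Phi_zero D r) _ _ m _ _ h2
  · rw [h3]; ring
  · linarith
  · linarith

end Pool.Agent.Lib.MP_602b76_co_Never
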