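import Pool.Agent.Lib.MP_602b76_co_Never.Part4

namespace Pool.Agent.Lib.MP_602b76_co_Never

open Finset

/-- side lengths of the box: `m` in direction `0`, and `b` in the other directions -/
def side (D m b : ℕ) : Fin (D + 2) → ℕ := Fin.cons m (fun _ => b)

/-- the box with `m` layers of side `b` -/
noncomputable def box (D m b : ℕ) : Finset (Fin (D + 2) → ℤ) :=
  Fintype.piFinset (fun k => Ico (0 : ℤ) (side D m b k))

lemma box_card (D m b : ℕ) : (box D m b).card = m * b ^ (D + 1) := by
  unfold box
  rw [Fintype.card_piFinset]
  simp only [Int.card_Ico, sub_zero, Int.toNat_natCast]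
  rw [Fin.prod_univ_succ]
  simp [side]

lemma box_out (D m b : ℕ) (k : Fin (D + 2)) (j : ℕ) :
    outc (box D m b) (Pi.single k (j : ℤ)) ≤ j * ∏ l ∈ univ \ {k}, side D m b l := by
  have h1 : (box D m b).filter (fun x => x + Pi.single k (j : ℤ) ∉ box D m b) ⊆
      Fintype.piFinset (Function.update (fun k => Ico (0 : ℤ) (side D m b k)) k
        (Ico ((side D m b k : ℤ) - j) (side D m b k))) := by
    intro x hx
    simp only [box, mem_filter, Fintype.mem_piFinset, mem_Ico] at hx
    obtain ⟨h1, h2⟩ := hx
    rw [Fintype.mem_piFinset]
    intro l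
    by_cases hl : l = k
    · subst hl
      rw [Function.update_self, mem_Ico]
      refine ⟨?_, (h1 l).2⟩
      by_contra hcon
      apply h2
      intro l'
      by_cases hl' : l' = l
      · subst hl'
        simp only [Pi.add_apply, Pi.single_eq_same]
        have := h1 l'
        constructor
        · omega
        · omega
      · simp only [Pi.add_apply, Pi.single_eq_of_ne hl', add_zero]
        exact h1 l'
    · rw [Function.update_of_ne hl, mem_Ico]
      exact h1 l
  unfold outc
  refine (card_le_card h1).trans ?_
  rw [Fintype.card_piFinset]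
  have h2 : ∀ l, (Function.update (fun k => Ico (0 : ℤ) (side D m b k)) k
      (Ico ((side D m b k : ℤ) - j) (side D m b k)) l).card
      = Function.update (fun k => side D m b k) k j l := by
    intro l
    by_cases hl : l = k
    · subst hl
      rw [Function.update_self, Function.update_self, Int.card_Ico]
      omega
    · rw [Function.update_of_ne hl, Function.update_of_ne hl, Int.card_Ico]
      omega
  rw [prod_congr rfl (fun l _ => h2 l), prod_update_of_mem (mem_univ k)]

lemma box_cost (D m b r : ℕ) :
    2 * ∑ u ∈ gen D r, outc (box D m b) u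
      ≤ 2 * b ^ (D + 1) + (D + 1) * (r * (r + 1)) * (m * b ^ D) := by
  rw [sum_gen]
  have h0 : outc (box D m b) (Pi.single 0 1) ≤ b ^ (D + 1) := by
    have := box_out D m b 0 1
    have h2 : ∏ l ∈ univ \ {(0 : Fin (D + 2))}, side D m b l = b ^ (D + 1) := by
      have h3 : (univ \ {(0 : Fin (D + 2))} : Finset (Fin (D + 2))) = univ.image Fin.succ := by
        ext l
        simp only [mem_sdiff, mem_univ, mem_singleton, true_and, mem_image]
        constructor
        · intro h
          exact ⟨l.pred h, by simp⟩
        · rintro ⟨k, rfl⟩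
          exact Fin.succ_ne_zero k
      rw [h3, prod_image (fun a _ b _ h => Fin.succ_injective _ h)]
      simp [side]
    rw [h2] at this
    simpa using this
  have h1 : ∀ i : Fin (D + 1), 2 * Wi r (box D m b) i.succ ≤ r * (r + 1) * (m * b ^ D) := by
    intro i
    have h2 : ∏ l ∈ univ \ {(i.succ : Fin (D + 2))}, side D m b l = m * b ^ D := by
      have h3 : (univ \ {(i.succ : Fin (D + 2))} : Finset (Fin (D + 2)))
          = insert 0 ((univ \ {i}).image Fin.succ) := by
        ext l
        simp only [mem_sdiff, mem_univ, mem_singleton, true_and, mem_image, mem_insert]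
        refine Fin.cases ?_ (fun l => ?_) l
        · simp [(Fin.succ_ne_zero i).symm]
        · constructor
          · intro h
            right
            exact ⟨l, fun h' => h (by rw [h']), rfl⟩
          · rintro (h | ⟨k, hk, hk2⟩)
            · exact absurd h (Fin.succ_ne_zero l)
            · intro h'
              apply hk
              rw [← hk2] at h'
              exact Fin.succ_injective _ h'
      rw [h3, prod_insert, prod_image (fun a _ b _ h => Fin.succ_injective _ h)]
      · simp only [side, Fin.cons_zero, Fin.cons_succ, prod_const]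
        rw [card_sdiff_of_subset (by simp)]
        simp
      · simp only [mem_image, mem_sdiff, mem_univ, mem_singleton, true_and, not_exists, not_and]
        intro x _
        exact Fin.succ_ne_zero x
    unfold Wi
    have h4 : ∑ j ∈ Icc 1 r, outc (box D m b) (Pi.single i.succ (j : ℤ))
        ≤ ∑ j ∈ Icc 1 r, j * (m * b ^ D) := by
      apply sum_le_sum
      intro j _
      have := box_out D m b i.succ j
      rwa [h2] at this
    rw [← sum_mul] at h4
    have h5 : (∑ j ∈ Icc 1 r, j) * 2 = r * (r + 1) := by
      have h6 : ∑ j ∈ Icc 1 r, j = ∑ j ∈ range (r + 1), j := by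
        rw [range_eq_Ico, sum_eq_sum_Ico_succ_bot (by omega)]
        simp
        rfl
      rw [h6, Finset.sum_range_id_mul_two]
      simp [mul_comm]
    calc 2 * ∑ j ∈ Icc 1 r, outc (box D m b) (Pi.single i.succ (j : ℤ))
        ≤ 2 * ((∑ j ∈ Icc 1 r, j) * (m * b ^ D)) := Nat.mul_le_mul_left 2 h4
      _ = ((∑ j ∈ Icc 1 r, j) * 2) * (m * b ^ D) := by ring
      _ = _ := by rw [h5]
  have h2 : 2 * ∑ i : Fin (D + 1), Wi r (box D m b) i.succ
      ≤ (D + 1) * (r * (r + 1) * (m * b ^ D)) := by
    rw [mul_sum]
    refine (sum_le_sum (fun i _ => h1 i)).trans ?_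
    simp
  nlinarith

end Pool.Agent.Lib.MP_602b76_co_Never
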