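import Pool.Agent.Lib.MP_602b76_co_Never.Part5

namespace Pool.Agent.Lib.MP_602b76_co_Never

open Finset

lemma Phi_big (D r : ℕ) (β : ℝ) (h0 : 0 ≤ β) (hβ : (r : ℝ) * ((D : ℝ) + 1) ≤ β) :
    Phi D r (β ^ (D + 1)) = ((r : ℝ) * (r + 1) / 2) * ((D : ℝ) + 1) * β ^ D := by
  unfold Phi
  rw [root_rpow D β h0, min_eq_left]
  · ring
  · rw [pow_succ, mul_comm (β ^ D) β]
    exact mul_le_mul_of_nonneg_right hβ (by positivity)

lemma Phi_small (D r : ℕ) (β : ℝ) (h0 : 0 ≤ β) (hβ : β ≤ (r : ℝ) * ((D : ℝ) + 1)) :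
    Phi D r (β ^ (D + 1)) = ((r : ℝ) + 1) / 2 * β ^ (D + 1) := by
  unfold Phi
  rw [root_rpow D β h0, min_eq_right]
  rw [pow_succ, mul_comm (β ^ D) β]
  exact mul_le_mul_of_nonneg_right hβ (by positivity)

/-- tangent line inequality plus comparison of the reciprocal terms -/
lemma mono_bound (D : ℕ) (c n β γ : ℝ) (hβ : 0 < β) (hγ : 0 < γ)
    (h : (β ≤ γ ∧ γ ^ (D + 2) ≤ c * n) ∨ (γ ≤ β ∧ c * n ≤ γ ^ (D + 2))) :
    γ ^ (D + 1) + n * (c * ((D : ℝ) + 1)) / γ ≤ β ^ (D + 1) + n * (c * ((D : ℝ) + 1)) / β := by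
  have h1 := amgm D β γ hβ.le hγ.le
  have hE : 0 < (D : ℝ) + 1 := by positivity
  have hpow : 0 < γ ^ (D + 2) := by positivity
  have h2 : 0 ≤ (β - γ) * (β * γ ^ (D + 1) - n * c) := by
    rcases h with ⟨h3, h4⟩ | ⟨h3, h4⟩
    · have h5 : β * γ ^ (D + 1) ≤ γ ^ (D + 2) := by
        rw [pow_succ' γ (D + 1)]
        exact mul_le_mul_of_nonneg_right h3 (by positivity)
      have h6 : β * γ ^ (D + 1) - n * c ≤ 0 := by linarith
      have h7 : β - γ ≤ 0 := by linarith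
      exact mul_nonneg_of_nonpos_of_nonpos h7 h6
    · have h5 : γ ^ (D + 2) ≤ β * γ ^ (D + 1) := by
        rw [pow_succ' γ (D + 1)]
        exact mul_le_mul_of_nonneg_right h3 (by positivity)
      have h6 : 0 ≤ β * γ ^ (D + 1) - n * c := by linarith
      have h7 : 0 ≤ β - γ := by linarith
      exact mul_nonneg h7 h6
  have h3 : n * (c * ((D : ℝ) + 1)) / β - n * (c * ((D : ℝ) + 1)) / γ
      = ((D : ℝ) + 1) * (n * c * (γ - β)) / (β * γ) := by
    field_simp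
  have h4 : ((D : ℝ) + 1) * (γ ^ D * (β - γ)) ≤ β ^ (D + 1) - γ ^ (D + 1) := by
    have h5 : ((D : ℝ) + 1) * (γ ^ D * (β - γ))
        = ((D : ℝ) + 1) * (β * γ ^ D) - (D * γ ^ (D + 1) + γ ^ (D + 1)) := by ring
    rw [h5]
    linarith
  have h6 : 0 ≤ ((D : ℝ) + 1) * (γ ^ D * (β - γ))
      + ((D : ℝ) + 1) * (n * c * (γ - β)) / (β * γ) := by
    have h7 : ((D : ℝ) + 1) * (γ ^ D * (β - γ))
      + ((D : ℝ) + 1) * (n * c * (γ - β)) / (β * γ)
      = ((D : ℝ) + 1) * ((β - γ) * (β * γ ^ (D + 1) - n * c)) / (β * γ) := by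
      field_simp
      ring
    rw [h7]
    positivity
  linarith

lemma chord {φ : ℝ → ℝ} (hφ : ConcaveOn ℝ (Set.Ici 0) φ) (h0 : φ 0 = 0) (m M0 M M1 : ℝ)
    (hm : 0 < m) (hM0 : 0 < M0) (h1 : M0 ≤ M) (h2 : M ≤ M1) (h3 : m * M1 = (m + 1) * M0) :
    ((m + 1) * M0 - m * M) * (M0 + (m + 1) * φ M0) + m * (M - M0) * (M1 + m * φ M1)
      ≤ M0 * (M + (m * φ M + φ ((m + 1) * M0 - m * M))) := by
  have a1 := mul_le_mul_of_nonneg_left (concave_seg hφ hM0.le h1 h2) hm.le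
  have hmM : m * M ≤ m * M1 := mul_le_mul_of_nonneg_left h2 hm.le
  have hmM0 : m * M0 ≤ m * M := mul_le_mul_of_nonneg_left h1 hm.le
  have hy0 : 0 ≤ (m + 1) * M0 - m * M := by linarith
  have hy1 : (m + 1) * M0 - m * M ≤ M0 := by linarith
  have a2 := concave_seg hφ le_rfl hy0 hy1
  rw [h0] at a2
  generalize φ ((m + 1) * M0 - m * M) = p at *
  generalize φ M = q at *
  generalize φ M1 = u at *
  generalize φ M0 = v at *
  have a3 : ((m + 1) * M0 - m * M) * v + m * (M - M0) * u ≤ M0 * q := by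
    have e1 : m * ((M1 - M) * v + (M - M0) * u) = (m * M1 - m * M) * v + m * (M - M0) * u := by
      ring
    have e2 : m * ((M1 - M0) * q) = (m * M1 - m * M0) * q := by ring
    rw [e1, e2, h3] at a1
    have e3 : ((m + 1) * M0 - m * M0) * q = M0 * q := by ring
    rw [e3] at a1
    exact a1
  have a4 : ((m + 1) * M0 - m * M) * v ≤ M0 * p := by linarith
  have a5 := mul_le_mul_of_nonneg_left a3 hm.le
  have e4 : m * (M - M0) * (M1 + m * u) = (M - M0) * (m * M1) + m * (m * (M - M0) * u) := by ring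
  rw [e4, h3]
  nlinarith

lemma S_case (D r m : ℕ) (hm : 1 ≤ m) (b : ℕ) (ρ : ℝ) (hρ : 0 < ρ)
    (hρm : m * ρ ^ (D + 1) = m + 1)
    (hb0 : 1 ≤ b)
    (hK : (b : ℝ) < ((r : ℝ) * (r + 1) / 2) * ((D : ℝ) + 1) * m * (m + 1) * (ρ - 1))
    (hb1 : (b : ℝ) ≤ ρ * (((r : ℝ) * (r + 1) / 2) * (m + 1)))
    (hb2 : (r : ℝ) * ((D : ℝ) + 1) * ρ ≤ b)
    (hb3 : (b : ℝ) + ((r : ℝ) * (r + 1) / 2) * ((D : ℝ) + 1) * m ≤ ((r : ℝ) + 1) / 2 * m * b)
    (S : Finset (Fin (D + 2) → ℤ)) (hS : S.card = m * b ^ (D + 1))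
    (hopt : 2 * ((∑ u ∈ gen D r, outc S u : ℕ) : ℝ)
      ≤ 2 * (b : ℝ) ^ (D + 1) + ((D : ℝ) + 1) * (r * (r + 1)) * (m * b ^ D)) :
    (b : ℝ) ^ (D + 1) ≤ (S.image Fin.tail).card := by
  by_contra hcon
  rw [not_le] at hcon
  have hm0 : (0 : ℝ) < m := by exact_mod_cast hm
  have hb : (0 : ℝ) < b := by exact_mod_cast hb0
  have hScard : (S.card : ℝ) = m * b ^ (D + 1) := by rw [hS]; push_cast; rfl
  have hSne : S.Nonempty := by
    rw [← card_pos, hS]
    positivity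
  have hMpos : (0 : ℝ) < (S.image Fin.tail).card := by
    exact_mod_cast card_pos.2 (hSne.image _)
  have l1 := L1 D r S
  have l2 := L2 D r m S
  rw [hScard] at l1 l2
  generalize ((∑ u ∈ gen D r, outc S u : ℕ) : ℝ) = C at *
  generalize ((S.image Fin.tail).card : ℝ) = M at *
  clear hS hScard hSne
  set c : ℝ := (r : ℝ) * (r + 1) / 2 with hc
  set E : ℝ := (D : ℝ) + 1 with hE
  have hE0 : 0 < E := by positivity
  have hc0 : 0 ≤ c := by positivity
  -- `β0 = b / ρ`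
  obtain ⟨β0, hβ0⟩ : ∃ β0 : ℝ, β0 * ρ = b := ⟨b / ρ, by field_simp⟩
  have hβ0pos : 0 < β0 := by
    by_contra h
    rw [not_lt] at h
    have := mul_nonpos_of_nonpos_of_nonneg h hρ.le
    linarith
  have hM0 : (m + 1) * β0 ^ (D + 1) = m * (b : ℝ) ^ (D + 1) := by
    rw [← hρm, ← hβ0]; ring
  have hβ0r : (r : ℝ) * E ≤ β0 := by
    rw [← hβ0] at hb2
    exact le_of_mul_le_mul_right hb2 hρ
  have hβ0c : β0 ≤ c * (m + 1) := by
    rw [← hβ0, mul_comm] at hb1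
    exact le_of_mul_le_mul_left hb1 hρ
  have hbr : (r : ℝ) * E ≤ b := by
    have h1 : (m : ℝ) * 1 ≤ m * ρ ^ (D + 1) := by rw [hρm]; linarith
    have h2 := le_of_mul_le_mul_left h1 hm0
    have h3 : 1 ≤ ρ := by
      by_contra h
      rw [not_le] at h
      have := pow_lt_one₀ (n := D + 1) hρ.le h (Nat.succ_ne_zero D)
      linarith
    rw [← hβ0]
    nlinarith
  have hG1 : b ^ (D + 1) + m * Phi D r ((b : ℝ) ^ (D + 1)) = (b : ℝ) ^ (D + 1) + m * (c * E * b ^ D) := by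
    rw [Phi_big D r b hb.le hbr]
  have hC : C ≤ (b : ℝ) ^ (D + 1) + m * (c * E * b ^ D) := by
    have : E * (r * (r + 1)) * (m * (b : ℝ) ^ D) = 2 * (m * (c * E * b ^ D)) := by
      rw [hc]; ring
    linarith
  -- `G0 > G1`
  have hG : (b : ℝ) ^ (D + 1) + m * (c * E * b ^ D) < β0 ^ (D + 1) + (m + 1) * (c * E * β0 ^ D) := by
    have h1 : (m + 1) * (β0 ^ (D + 1) + (m + 1) * (c * E * β0 ^ D)
        - ((b : ℝ) ^ (D + 1) + m * (c * E * b ^ D)))
        = (b : ℝ) ^ D * (c * E * m * (m + 1) * (ρ - 1) - b) := by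
      have h2 : (m + 1) * β0 ^ D = m * ρ * (b : ℝ) ^ D := by
        rw [← hρm, ← hβ0]; ring
      have h3 : (m + 1) * (β0 ^ (D + 1) + (m + 1) * (c * E * β0 ^ D)
        - ((b : ℝ) ^ (D + 1) + m * (c * E * b ^ D)))
        = (m + 1) * β0 ^ (D + 1) + (m + 1) * (c * E) * ((m + 1) * β0 ^ D)
        - (m + 1) * ((b : ℝ) ^ (D + 1) + m * (c * E * b ^ D)) := by ring
      rw [h3, hM0, h2]
      ring
    have h2 : 0 < (b : ℝ) ^ D * (c * E * m * (m + 1) * (ρ - 1) - b) := by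
      apply mul_pos (by positivity)
      linarith
    rw [← h1] at h2
    have h3 : (0 : ℝ) < m + 1 := by linarith
    have := pos_of_mul_pos_right h2 h3.le
    linarith
  rcases lt_or_ge (β0 ^ (D + 1)) M with hlt | hge
  · -- chord case
    have h1 : (m : ℝ) * M < m * b ^ (D + 1) := mul_lt_mul_of_pos_left hcon hm0
    have h2 : (m : ℝ) * b ^ (D + 1) < (m + 1) * M := by
      rw [← hM0]
      exact mul_lt_mul_of_pos_left hlt (by linarith)
    have h3 := l2 h1 h2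
    have h4 := chord (Phi_concave D r) (Phi_zero D r) m (β0 ^ (D + 1)) M ((b : ℝ) ^ (D + 1)) hm0
      (by positivity) hlt.le hcon.le hM0.symm
    rw [hM0, hG1, Phi_big D r β0 hβ0pos.le hβ0r, ← hc, ← hE] at h4
    have h5 : 0 < β0 ^ (D + 1) := by positivity
    have h6 := mul_le_mul_of_nonneg_left h3 h5.le
    have h7 := mul_le_mul_of_nonneg_left hC h5.le
    have h8 : 0 < m * (b : ℝ) ^ (D + 1) - m * M := by linarith
    have h9 := mul_lt_mul_of_pos_left hG h8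
    have h10 : (m * (b : ℝ) ^ (D + 1) - m * M) + m * (M - β0 ^ (D + 1)) = β0 ^ (D + 1) := by
      rw [← hM0]; ring
    have h11 : (m * (b : ℝ) ^ (D + 1) - m * M) * ((b : ℝ) ^ (D + 1) + m * (c * E * b ^ D))
        + m * (M - β0 ^ (D + 1)) * ((b : ℝ) ^ (D + 1) + m * (c * E * b ^ D))
        = β0 ^ (D + 1) * ((b : ℝ) ^ (D + 1) + m * (c * E * b ^ D)) := by
      rw [← add_mul, h10]
    linarith
  · obtain ⟨β, hβ, hβM⟩ := exists_root D M hMpos.le
    have hβpos : 0 < β := by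
      rcases hβ.eq_or_lt with h | h
      · rw [← h, zero_pow (Nat.succ_ne_zero D)] at hβM
        linarith
      · exact h
    have hββ0 : β ≤ β0 := by
      rw [← hβM] at hge
      exact le_of_pow_le_pow_left₀ (Nat.succ_ne_zero D) hβ0pos.le hge
    rcases le_total β (r * E) with h | h
    · rw [← hβM, Phi_small D r β hβ h, hβM] at l1
      have h1 : M * (m * b ^ (D + 1) * (((r : ℝ) + 1) / 2) + M) ≤ M * C := by
        calc M * (m * b ^ (D + 1) * (((r : ℝ) + 1) / 2) + M)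
            = m * b ^ (D + 1) * (((r : ℝ) + 1) / 2 * M) + M ^ 2 := by ring
          _ ≤ M * C := l1
      have h2 := le_of_mul_le_mul_left h1 hMpos
      have h3 : (b : ℝ) ^ D * (b + c * E * m) ≤ (b : ℝ) ^ D * (((r : ℝ) + 1) / 2 * m * b) :=
        mul_le_mul_of_nonneg_left hb3 (by positivity)
      have h4 : (b : ℝ) ^ D * (b + c * E * m) = (b : ℝ) ^ (D + 1) + m * (c * E * b ^ D) := by ring
      have h5 : (b : ℝ) ^ D * (((r : ℝ) + 1) / 2 * m * b)
          = m * b ^ (D + 1) * (((r : ℝ) + 1) / 2) := by ring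
      linarith
    · rw [← hβM, Phi_big D r β hβ h] at l1
      have h1 : β ^ (D + 1) * (β ^ (D + 1) + (m * (b : ℝ) ^ (D + 1)) * (c * E) / β)
          ≤ β ^ (D + 1) * C := by
        calc β ^ (D + 1) * (β ^ (D + 1) + (m * (b : ℝ) ^ (D + 1)) * (c * E) / β)
            = m * (b : ℝ) ^ (D + 1) * (c * E * β ^ D) + (β ^ (D + 1)) ^ 2 := by
              field_simp
              ring
          _ ≤ _ := l1
      have h2 := le_of_mul_le_mul_left h1 (by positivity)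
      have h3 := mono_bound D c (m * (b : ℝ) ^ (D + 1)) β β0 hβpos hβ0pos
        (Or.inl ⟨hββ0, by
          rw [← hM0, pow_succ]
          calc β0 ^ (D + 1) * β0 ≤ β0 ^ (D + 1) * (c * (m + 1)) :=
                mul_le_mul_of_nonneg_left hβ0c (by positivity)
            _ = _ := by ring⟩)
      have h4 : (m * (b : ℝ) ^ (D + 1)) * (c * ((D : ℝ) + 1)) / β0
          = (m + 1) * (c * E * β0 ^ D) := by
        rw [← hM0, hE, pow_succ]
        field_simp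
      rw [h4] at h3
      linarith

lemma T_case (D r m : ℕ) (hm : 1 ≤ m) (b : ℕ) (ρ : ℝ) (hρ : 1 ≤ ρ)
    (hρm : m * ρ ^ (D + 1) = m + 1)
    (hb0 : 1 ≤ b)
    (hK : ((r : ℝ) * (r + 1) / 2) * ((D : ℝ) + 1) * m * (m + 1) * (ρ - 1) < b * ρ)
    (hb1 : ((r : ℝ) * (r + 1) / 2) * m ≤ b * ρ)
    (hb2 : (r : ℝ) * ((D : ℝ) + 1) ≤ b)
    (S : Finset (Fin (D + 2) → ℤ)) (hS : S.card = (m + 1) * b ^ (D + 1))
    (hopt : 2 * ((∑ u ∈ gen D r, outc S u : ℕ) : ℝ)
      ≤ 2 * (b : ℝ) ^ (D + 1) + ((D : ℝ) + 1) * (r * (r + 1)) * ((m + 1) * b ^ D)) :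
    ((S.image Fin.tail).card : ℝ) ≤ (b : ℝ) ^ (D + 1) := by
  by_contra hcon
  rw [not_le] at hcon
  have hm0 : (0 : ℝ) < m := by exact_mod_cast hm
  have hb : (0 : ℝ) < b := by exact_mod_cast hb0
  have hρ0 : 0 < ρ := by linarith
  have hScard : (S.card : ℝ) = (m + 1) * b ^ (D + 1) := by rw [hS]; push_cast; rfl
  have l1 := L1 D r S
  have l2 := L2 D r m S
  rw [hScard] at l1 l2
  generalize ((∑ u ∈ gen D r, outc S u : ℕ) : ℝ) = C at *
  generalize ((S.image Fin.tail).card : ℝ) = M at *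
  clear hS hScard
  set c : ℝ := (r : ℝ) * (r + 1) / 2 with hc
  set E : ℝ := (D : ℝ) + 1 with hE
  have hE0 : 0 < E := by positivity
  have hc0 : 0 ≤ c := by positivity
  obtain ⟨β1, hβ1⟩ : ∃ β1 : ℝ, β1 = b * ρ := ⟨b * ρ, rfl⟩
  have hβ1pos : 0 < β1 := by rw [hβ1]; positivity
  have hM1 : m * β1 ^ (D + 1) = (m + 1) * (b : ℝ) ^ (D + 1) := by
    rw [← hρm, hβ1]; ring
  have hbβ1 : (b : ℝ) ≤ β1 := by
    rw [hβ1]; nlinarith
  have hβ1r : (r : ℝ) * E ≤ β1 := hb2.trans hbβ1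
  have hC : C ≤ (b : ℝ) ^ (D + 1) + (m + 1) * (c * E * b ^ D) := by
    have : E * (r * (r + 1)) * ((m + 1) * (b : ℝ) ^ D) = 2 * ((m + 1) * (c * E * b ^ D)) := by
      rw [hc]; ring
    linarith
  -- `G1 > G0`
  have hG : (b : ℝ) ^ (D + 1) + (m + 1) * (c * E * b ^ D) < β1 ^ (D + 1) + m * (c * E * β1 ^ D) := by
    have h1 : m * ρ * (β1 ^ (D + 1) + m * (c * E * β1 ^ D)
        - ((b : ℝ) ^ (D + 1) + (m + 1) * (c * E * b ^ D)))
        = (b : ℝ) ^ D * (b * ρ - c * E * m * (m + 1) * (ρ - 1)) := by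
      have h2 : m * ρ * β1 ^ D = (m + 1) * (b : ℝ) ^ D := by
        rw [← hρm, hβ1]; ring
      have h3 : m * ρ * (β1 ^ (D + 1) + m * (c * E * β1 ^ D)
        - ((b : ℝ) ^ (D + 1) + (m + 1) * (c * E * b ^ D)))
        = ρ * (m * β1 ^ (D + 1)) + (m * (c * E)) * (m * ρ * β1 ^ D)
        - m * ρ * ((b : ℝ) ^ (D + 1) + (m + 1) * (c * E * b ^ D)) := by ring
      rw [h3, hM1, h2]
      ring
    have h2 : 0 < (b : ℝ) ^ D * (b * ρ - c * E * m * (m + 1) * (ρ - 1)) := by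
      apply mul_pos (by positivity)
      linarith
    rw [← h1] at h2
    have h3 : (0 : ℝ) < m * ρ := by positivity
    have := pos_of_mul_pos_right h2 h3.le
    linarith
  rcases lt_or_ge M (β1 ^ (D + 1)) with hlt | hge
  · have h1 : (m : ℝ) * M < (m + 1) * b ^ (D + 1) := by
      rw [← hM1]
      exact mul_lt_mul_of_pos_left hlt hm0
    have h2 : ((m : ℝ) + 1) * b ^ (D + 1) < (m + 1) * M :=
      mul_lt_mul_of_pos_left hcon (by linarith)
    have h3 := l2 h1 h2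
    have h4 := chord (Phi_concave D r) (Phi_zero D r) m ((b : ℝ) ^ (D + 1)) M (β1 ^ (D + 1)) hm0
      (by positivity) hcon.le hlt.le hM1
    rw [Phi_big D r b hb.le hb2, Phi_big D r β1 hβ1pos.le hβ1r, ← hc, ← hE] at h4
    have h5 : 0 < (b : ℝ) ^ (D + 1) := by positivity
    have h6 := mul_le_mul_of_nonneg_left h3 h5.le
    have h7 := mul_le_mul_of_nonneg_left hC h5.le
    have h8 : 0 < m * (M - (b : ℝ) ^ (D + 1)) := mul_pos hm0 (by linarith)
    have h9 := mul_lt_mul_of_pos_left hG h8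
    have h11 : ((m + 1) * (b : ℝ) ^ (D + 1) - m * M) * ((b : ℝ) ^ (D + 1) + (m + 1) * (c * E * b ^ D))
        + m * (M - (b : ℝ) ^ (D + 1)) * ((b : ℝ) ^ (D + 1) + (m + 1) * (c * E * b ^ D))
        = (b : ℝ) ^ (D + 1) * ((b : ℝ) ^ (D + 1) + (m + 1) * (c * E * b ^ D)) := by
      ring
    linarith
  · have hMpos : 0 < M := lt_of_lt_of_le (by positivity) hge
    obtain ⟨β, hβ, hβM⟩ := exists_root D M hMpos.le
    have hβpos : 0 < β := by
      rcases hβ.eq_or_lt with h | h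
      · rw [← h, zero_pow (Nat.succ_ne_zero D)] at hβM
        linarith
      · exact h
    have hββ1 : β1 ≤ β := by
      rw [← hβM] at hge
      exact le_of_pow_le_pow_left₀ (Nat.succ_ne_zero D) hβ hge
    rw [← hβM, Phi_big D r β hβ (hβ1r.trans hββ1)] at l1
    have h1 : β ^ (D + 1) * (β ^ (D + 1) + ((m + 1) * (b : ℝ) ^ (D + 1)) * (c * E) / β)
        ≤ β ^ (D + 1) * C := by
      calc β ^ (D + 1) * (β ^ (D + 1) + ((m + 1) * (b : ℝ) ^ (D + 1)) * (c * E) / β)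
          = (m + 1) * (b : ℝ) ^ (D + 1) * (c * E * β ^ D) + (β ^ (D + 1)) ^ 2 := by
            field_simp
            ring
        _ ≤ _ := l1
    have h2 := le_of_mul_le_mul_left h1 (by positivity)
    have h3 := mono_bound D c ((m + 1) * (b : ℝ) ^ (D + 1)) β β1 hβpos hβ1pos
      (Or.inr ⟨hββ1, by
        rw [← hM1, pow_succ β1 (D + 1)]
        calc c * (m * β1 ^ (D + 1)) = β1 ^ (D + 1) * (c * m) := by ring
          _ ≤ β1 ^ (D + 1) * β1 := mul_le_mul_of_nonneg_left (by rw [hβ1]; exact hb1) (by positivity)⟩)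
    have h4 : ((m + 1) * (b : ℝ) ^ (D + 1)) * (c * ((D : ℝ) + 1)) / β1
        = m * (c * E * β1 ^ D) := by
      rw [← hM1, hE, pow_succ]
      field_simp
    rw [h4] at h3
    linarith

end Pool.Agent.Lib.MP_602b76_co_Never
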