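import Pool.Agent.Lib.MP_602b76_co_Never.Part6

namespace Pool.Agent.Lib.MP_602b76_co_Never

open Finset

lemma params (D m : ℕ) (hm : 1 ≤ m) : ∃ (ρ : ℝ) (b : ℕ), 1 ≤ ρ ∧ (m : ℝ) * ρ ^ (D + 1) = m + 1 ∧
    1 ≤ b ∧
    (((b + 1 : ℕ) : ℝ) < (((4 * (D + 1) : ℕ) : ℝ) * (((4 * (D + 1) : ℕ) : ℝ) + 1) / 2) *
      ((D : ℝ) + 1) * m * (m + 1) * (ρ - 1)) ∧
    (((b + 1 : ℕ) : ℝ) ≤ ρ * ((((4 * (D + 1) : ℕ) : ℝ) * (((4 * (D + 1) : ℕ) : ℝ) + 1) / 2)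
      * (m + 1))) ∧
    (((4 * (D + 1) : ℕ) : ℝ) * ((D : ℝ) + 1) * ρ ≤ ((b + 1 : ℕ) : ℝ)) ∧
    (((b + 1 : ℕ) : ℝ) + (((4 * (D + 1) : ℕ) : ℝ) * (((4 * (D + 1) : ℕ) : ℝ) + 1) / 2)
      * ((D : ℝ) + 1) * m ≤ (((4 * (D + 1) : ℕ) : ℝ) + 1) / 2 * m * ((b + 1 : ℕ) : ℝ)) ∧
    ((((4 * (D + 1) : ℕ) : ℝ) * (((4 * (D + 1) : ℕ) : ℝ) + 1) / 2) *
      ((D : ℝ) + 1) * m * (m + 1) * (ρ - 1) < b * ρ) ∧
    ((((4 * (D + 1) : ℕ) : ℝ) * (((4 * (D + 1) : ℕ) : ℝ) + 1) / 2) * m ≤ b * ρ) ∧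
    (((4 * (D + 1) : ℕ) : ℝ) * ((D : ℝ) + 1) ≤ b) ∧
    m * (b + 1) ^ (D + 1) < (m + 1) * b ^ (D + 1) := by
  have hm1 : (1 : ℝ) ≤ m := by exact_mod_cast hm
  have hm0 : (0 : ℝ) < m := by linarith
  have hr : ((4 * (D + 1) : ℕ) : ℝ) = 4 * ((D : ℝ) + 1) := by push_cast; ring
  rw [hr]
  obtain ⟨E, hE⟩ : ∃ E : ℝ, E = (D : ℝ) + 1 := ⟨_, rfl⟩
  have hE1 : 1 ≤ E := by rw [hE]; linarith [(Nat.cast_nonneg D : (0 : ℝ) ≤ D)]
  rw [← hE]
  obtain ⟨c, hc⟩ : ∃ c : ℝ, c = (4 * E) * (4 * E + 1) / 2 := ⟨_, rfl⟩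
  rw [← hc]
  have hc0 : 0 < c := by rw [hc]; positivity
  have hcE : 8 * E * E ≤ c := by rw [hc]; nlinarith
  obtain ⟨ρ, hρ0, hρ⟩ := exists_root D (((m : ℝ) + 1) / m) (by positivity)
  have hρm : (m : ℝ) * ρ ^ (D + 1) = m + 1 := by rw [hρ]; field_simp
  have hρ1 : 1 ≤ ρ := by
    by_contra h
    rw [not_le] at h
    have h1 := pow_lt_one₀ (n := D + 1) hρ0 h (Nat.succ_ne_zero D)
    have h2 : (m : ℝ) * ρ ^ (D + 1) < m * 1 := mul_lt_mul_of_pos_left h1 hm0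
    linarith
  have hρpos : 0 < ρ := by linarith
  have f1 : m * (E * (ρ - 1)) ≤ 1 := by
    have h1 : -2 ≤ ρ - 1 := by linarith
    have h2 := one_add_mul_le_pow h1 (D + 1)
    have h3 : 1 + (ρ - 1) = ρ := by ring
    rw [h3] at h2
    have h4 := mul_le_mul_of_nonneg_left h2 hm0.le
    rw [hρm] at h4
    push_cast at h4
    rw [← hE] at h4
    linarith
  have f2 : ρ ≤ E * (m + 1) * (ρ - 1) := by
    have h1 := amgm D 1 ρ zero_le_one hρpos.le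
    have h2 := mul_le_mul_of_nonneg_left h1 (mul_pos hm0 hρpos).le
    have h3 : (m * ρ) * (((D : ℝ) + 1) * (1 * ρ ^ D)) = E * (m * ρ ^ (D + 1)) := by rw [hE]; ring
    have h4 : (m * ρ) * ((1 : ℝ) ^ (D + 1) + D * ρ ^ (D + 1))
        = m * ρ + (E - 1) * ρ * (m * ρ ^ (D + 1)) := by rw [hE]; ring
    rw [h3, h4, hρm] at h2
    nlinarith
  have f3 : ρ ≤ 2 := by nlinarith
  -- `q`
  obtain ⟨q, hq⟩ : ∃ q : ℝ, q * ρ = c * E * m * (m + 1) * (ρ - 1) :=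
    ⟨c * E * m * (m + 1) * (ρ - 1) / ρ, by field_simp⟩
  have hq1 : c * m ≤ q := by
    have h1 : c * m * ρ ≤ q * ρ := by
      rw [hq]
      calc c * m * ρ ≤ c * m * (E * (m + 1) * (ρ - 1)) :=
            mul_le_mul_of_nonneg_left f2 (by positivity)
        _ = _ := by ring
    exact le_of_mul_le_mul_right h1 hρpos
  have hq0 : 0 ≤ q := le_trans (by positivity) hq1
  have hgap : 5 ≤ q * (ρ - 1) := by
    have h0 : 0 ≤ ρ - 1 := by linarith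
    have h1 : c * m * (ρ - 1) ≤ q * (ρ - 1) := mul_le_mul_of_nonneg_right hq1 h0
    have h2 : 1 ≤ E * (m + 1) * (ρ - 1) := le_trans hρ1 f2
    have h3 : E * (m + 1) * (ρ - 1) ≤ E * (2 * m) * (ρ - 1) := by
      apply mul_le_mul_of_nonneg_right _ h0
      apply mul_le_mul_of_nonneg_left _ (by linarith)
      linarith
    -- c m (ρ-1) = (c / (2E)) * (2 E m (ρ-1)) ≥ c/(2E) ≥ 5
    have h4 : c * m * (ρ - 1) = (4 * E + 1) * (E * (2 * m) * (ρ - 1)) := by rw [hc]; ring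
    have h5 : (4 * E + 1) * 1 ≤ (4 * E + 1) * (E * (2 * m) * (ρ - 1)) :=
      mul_le_mul_of_nonneg_left (h2.trans h3) (by linarith)
    linarith
  obtain ⟨b, hb⟩ : ∃ b : ℕ, b = ⌊q⌋₊ + 1 := ⟨_, rfl⟩
  have hbq : q < b := by
    rw [hb]; push_cast; exact Nat.lt_floor_add_one q
  have hbq2 : (b : ℝ) ≤ q + 1 := by
    rw [hb]; push_cast
    have := Nat.floor_le hq0
    linarith
  have hb1 : ((b + 1 : ℕ) : ℝ) = b + 1 := by push_cast; ring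
  have hKq : c * E * m * (m + 1) * (ρ - 1) = q + q * (ρ - 1) := by rw [← hq]; ring
  have hcm : c ≤ c * m := by nlinarith
  have hlt : (b : ℝ) + 1 < c * E * m * (m + 1) * (ρ - 1) := by rw [hKq]; linarith
  have hKc : c * E * m * (m + 1) * (ρ - 1) ≤ c * (m + 1) := by
    have : c * E * m * (m + 1) * (ρ - 1) = c * (m + 1) * (m * (E * (ρ - 1))) := by ring
    rw [this]
    calc c * (m + 1) * (m * (E * (ρ - 1))) ≤ c * (m + 1) * 1 :=
          mul_le_mul_of_nonneg_left f1 (by positivity)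
      _ = _ := by ring
  refine ⟨ρ, b, ?_⟩
  rw [hb1]
  refine ⟨hρ1, hρm, by omega, hlt, ?_, ?_, ?_, ?_, ?_, ?_, ?_⟩
  · have h1 : c * (m + 1) ≤ ρ * (c * (m + 1)) := by
      have : 0 < c * (m + 1) := by positivity
      nlinarith
    linarith
  · have h1 : 4 * E * E * ρ ≤ 4 * E * E * 2 := mul_le_mul_of_nonneg_left f3 (by positivity)
    linarith
  · have h1 : c * m ≤ b + 1 := by linarith
    have h2 : ((4 * E + 1) / 2 - 1) * (c * m) ≤ ((4 * E + 1) / 2 * m - 1) * (b + 1) := by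
      apply mul_le_mul _ h1 (by positivity)
      · nlinarith
      · nlinarith
    have h3 : c * E * m ≤ ((4 * E + 1) / 2 - 1) * (c * m) := by
      have : 0 ≤ (E - 1 / 2) * (c * m) := by
        apply mul_nonneg
        · linarith
        · positivity
      linarith
    linarith
  · rw [← hq]
    exact mul_lt_mul_of_pos_right hbq hρpos
  · have h1 : c * m ≤ b := by linarith
    have h2 : (b : ℝ) ≤ b * ρ := by nlinarith [(Nat.cast_nonneg b : (0 : ℝ) ≤ b)]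
    linarith
  · have : 0 ≤ 4 * E * E := by positivity
    linarith
  · have h1 : (b : ℝ) + 1 < b * ρ := by
      have h2 : q * (ρ - 1) ≤ b * (ρ - 1) := mul_le_mul_of_nonneg_right hbq.le (by linarith)
      linarith
    have h3 : ((b : ℝ) + 1) ^ (D + 1) < (b * ρ) ^ (D + 1) :=
      pow_lt_pow_left₀ h1 (by positivity) (Nat.succ_ne_zero D)
    have h4 : (m : ℝ) * ((b : ℝ) + 1) ^ (D + 1) < (m + 1) * (b : ℝ) ^ (D + 1) := by
      calc (m : ℝ) * ((b : ℝ) + 1) ^ (D + 1) < m * (b * ρ) ^ (D + 1) :=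
            mul_lt_mul_of_pos_left h3 hm0
        _ = (m * ρ ^ (D + 1)) * (b : ℝ) ^ (D + 1) := by ring
        _ = _ := by rw [hρm]
    exact_mod_cast h4

theorem never_pair (D N : ℕ) : ∃ n n' : ℕ, N ≤ n ∧ n < n' ∧
    ∀ S T : Finset (Fin (D + 2) → ℤ), S.card = n → T.card = n' →
      EdgeOptimal (gen D (4 * (D + 1))) S → EdgeOptimal (gen D (4 * (D + 1))) T → ¬ S ⊆ T := by
  obtain ⟨ρ, b, h1, h2, h3, h4, h5, h6, h7, h8, h9, h10, h11⟩ := params D (N + 1) (by omega)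
  set r := 4 * (D + 1) with hr
  refine ⟨(N + 1) * (b + 1) ^ (D + 1), (N + 1 + 1) * b ^ (D + 1), ?_, h11, ?_⟩
  · have : 1 ≤ (b + 1) ^ (D + 1) := Nat.one_le_pow _ _ (by omega)
    nlinarith
  · intro S T hS hT hSo hTo hST
    have hSopt := hSo (box D (N + 1) (b + 1)) (by rw [box_card, hS])
    have hTopt := hTo (box D (N + 1 + 1) b) (by rw [box_card, hT])
    rw [edgeBoundary_eq _ _ (gen_neg D r), edgeBoundary_eq _ _ (gen_neg D r)] at hSopt hTopt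
    have hS1 := hSopt.trans (box_cost D (N + 1) (b + 1) r)
    have hT1 := hTopt.trans (box_cost D (N + 1 + 1) b r)
    have hS2 : 2 * ((∑ u ∈ gen D r, outc S u : ℕ) : ℝ)
      ≤ 2 * ((b + 1 : ℕ) : ℝ) ^ (D + 1) + ((D : ℝ) + 1) * (r * (r + 1)) *
        (((N + 1 : ℕ) : ℝ) * ((b + 1 : ℕ) : ℝ) ^ D) := by
      exact_mod_cast hS1
    have hT2 : 2 * ((∑ u ∈ gen D r, outc T u : ℕ) : ℝ)
      ≤ 2 * (b : ℝ) ^ (D + 1) + ((D : ℝ) + 1) * (r * (r + 1)) *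
        ((((N + 1 : ℕ) : ℝ) + 1) * (b : ℝ) ^ D) := by
      exact_mod_cast hT1
    have hS3 := S_case D r (N + 1) (by omega) (b + 1) ρ (by linarith) h2 (by omega) h4 h5 h6 h7
      S hS hS2
    have hT3 := T_case D r (N + 1) (by omega) b ρ h1 h2 h3 h8 h9 h10 T hT hT2
    have h12 : ((S.image Fin.tail).card : ℝ) ≤ (T.image Fin.tail).card := by
      exact_mod_cast card_le_card (image_subset_image hST)
    have h13 : (((b + 1 : ℕ) : ℝ)) ^ (D + 1) ≤ (b : ℝ) ^ (D + 1) := hS3.trans (h12.trans hT3)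
    have h14 : (b + 1) ^ (D + 1) ≤ b ^ (D + 1) := by exact_mod_cast h13
    have h15 : b ^ (D + 1) < (b + 1) ^ (D + 1) :=
      Nat.pow_lt_pow_left (Nat.lt_succ_self b) (Nat.succ_ne_zero D)
    omega

theorem never_nested : ∀ d : ℕ, 2 ≤ d → ∃ U : Finset (Fin d → ℤ), (0 : Fin d → ℤ) ∉ U ∧
    AddSubgroup.closure (U : Set (Fin d → ℤ)) = ⊤ ∧
    (∀ N : ℕ, ∃ n n' : ℕ, N ≤ n ∧ n < n' ∧ ∀ S T : Finset (Fin d → ℤ), S.card = n → T.card = n' →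
      EdgeOptimal U S → EdgeOptimal U T → ¬ S ⊆ T) ∧
    ∀ (e : ℕ ≃ (Fin d → ℤ)) (N : ℕ), ∃ n, N ≤ n ∧
      ¬ EdgeOptimal U ((Finset.range n).image ⇑e) := by
  intro d hd
  obtain ⟨D, rfl⟩ : ∃ D, d = D + 2 := ⟨d - 2, by omega⟩
  refine ⟨gen D (4 * (D + 1)), gen_zero D _, gen_closure D _ (by omega), never_pair D, ?_⟩
  intro e N
  obtain ⟨n, n', h1, h2, h3⟩ := never_pair D N
  by_contra hcon
  push Not at hcon
  refine h3 _ _ ?_ ?_ (hcon n h1) (hcon n' (by omega)) ?_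
  · rw [card_image_of_injective _ e.injective, card_range]
  · rw [card_image_of_injective _ e.injective, card_range]
  · exact image_subset_image (range_mono h2.le)

end Pool.Agent.Lib.MP_602b76_co_Never
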